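import Mathlib

namespace Pool.Agent.Work.MP_394e0d_co

/-- `A` (rows indexed by `R`, columns by `C`, symbols in `V`) is a triple array: no symbol is
repeated in a row or in a column, every symbol occurs equally often, and the row-column, row-row
and column-column intersection sizes are constant. -/
def IsTripleArray {R C V : Type} (A : R → C → V) : Prop :=
  (∀ i, Function.Injective fun j => A i j) ∧
  (∀ j, Function.Injective fun i => A i j) ∧
  (∃ e : ℕ, ∀ s : V, {p : R × C | A p.1 p.2 = s}.ncard = e) ∧
  (∃ lrc : ℕ, ∀ i j, (Set.range (fun j' => A i j') ∩ Set.range (fun i' => A i' j)).ncard = lrc) ∧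
  (∃ lrr : ℕ, ∀ i i', i ≠ i' →
    (Set.range (fun j => A i j) ∩ Set.range (fun j => A i' j)).ncard = lrr) ∧
  (∃ lcc : ℕ, ∀ j j', j ≠ j' →
    (Set.range (fun i => A i j) ∩ Set.range (fun i => A i j')).ncard = lcc)

end Pool.Agent.Work.MP_394e0d_co
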